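import Pool.Agent.Helper61.FW.Ctx
import Pool.Agent.Helper58.FW.SelX
import Pool.Agent.Helper25.FA.Win
import Pool.Agent.Helper99.FW.Tre
import Pool.Agent.Helper9.ND.Blk

/-!
# FW: the windows of the chain given the label of the base (row SEENX)

`Ers` : the one-step errors `∑ (δ + Pw (cb ..) (NCl at step i))`; `ers_mean` : their mean over the base.
Under the law of the chain of row `a` given the label `Fl` of the base:
* `chain_x` : functions of the windows;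
* `seen_x` : the blocks of eight windows see every direction;
* `val_x` : some block is valid;
* `sel_x` : bad events of selected carriers, summed over levels;
* `Cst.seen_x`, `Cst.val_x` : in the tree of Helper99, at a base point whose node is good.
-/

set_option autoImplicit false
set_option linter.unusedSectionVars false

namespace Pool.Agent.Helper9.FW

open Finset Pool.Agent.Helper69.RK Pool.Agent.Helper61.GL Pool.Agent.Helper58.TR Pool.Agent.Helper25.FA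
  Pool.Agent.Helper46.WF Pool.Agent.Helper58.VW Pool.Agent.Helper61.FW Pool.Agent.Helper58.FW
open Pool.Agent.Helper92.FW (Cle chain_tv See Seen net seen_iid wK_miss)
open Pool.Agent.Helper9.ND (wK_blocks Gdw)

noncomputable section

/-! ### the chain given a label of the base -/

section gen

variable {Λ St κ χ V : Type} [Fintype Λ] [Fintype St] [Fintype V]

theorem cle_cg {Ω V : Type} [Fintype Ω] {μ μ' : Ω → ℝ} {W : Ω → V} [Fintype V] {u u' : V → ℝ} {ε : ℝ}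
    (h1 : μ = μ') (h2 : u = u') : Cle μ W u ε ↔ Cle μ' W u' ε := by
  subst h1 h2
  exact Iff.rfl

theorem pw_fun {Ω : Type} [Fintype Ω] (μ : Ω → ℝ) (A : Ω → Prop) [DecidablePred A] :
    Pw μ A = ∑ ω, μ ω * (if A ω then 1 else 0) := by
  unfold Pw
  refine Finset.sum_congr rfl fun ω _ => ?_
  by_cases h : A ω
  · rw [if_pos h, if_pos h, mul_one]
  · rw [if_neg h, if_neg h, mul_zero]

variable (l : Λ → ℝ) (r : Λ → St) (Θ : St → ℝ) (f : ℕ → St → κ) (hl : ∀ w, 0 ≤ l w) (hr : push r l = Θ)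
include hl hr

omit [Fintype Λ] [Fintype St] [Fintype V] hl hr in
/-- the past knows the windows before -/
theorem past_win {n : ℕ} (F : Λ → χ) (W : St → V) (i : Fin n) (ω ω' : Lam Λ St n)
    (h : past r n i ω = past r n i ω') :
    F (bs n ω) = F (bs n ω') ∧ ∀ j : Fin n, j < i → W (pt r n (j.1 + 1) ω) = W (pt r n (j.1 + 1) ω') := by
  obtain ⟨h1, h2⟩ := Prod.ext_iff.1 h
  refine ⟨congrArg F h1, fun j hj => ?_⟩
  exact congrArg W (congrFun h2 ⟨j.1 + 1, by have := Fin.lt_def.1 hj; omega⟩)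

/-- one step, given the label of the base -/
theorem cle_step (n : ℕ) (F : Λ → χ) (w : Λ) (hw : l w ≠ 0) (W : St → V) (u : St → V → ℝ) (w0 : V → ℝ)
    (hu : ∀ v, cb (law l r Θ f n) (bs n) l F w v ≠ 0 → ∀ i, i < n → u (pt r n i v) = w0) (δ : ℝ) (i : ℕ)
    (hi : i < n) :
    Pw (cb (law l r Θ f n) (bs n) l F w) (fun v => ¬ Cle (cw (cb (law l r Θ f n) (bs n) l F w) (past r n i) v)
      (fun v => W (pt r n (i + 1) v)) w0 δ) =
    Pw (cb (law l r Θ f n) (bs n) l F w) (fun v => ¬ Cle (cw Θ (f i) (pt r n i v)) W (u (pt r n i v)) δ) := by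
  classical
  unfold Pw
  refine Finset.sum_congr rfl fun v _ => ?_
  by_cases h0 : cb (law l r Θ f n) (bs n) l F w v = 0
  · rw [h0]
    split_ifs <;> rfl
  · have h1 : cw (cb (law l r Θ f n) (bs n) l F w) (past r n i) v = cw (law l r Θ f n) (past r n i) v :=
      cb_cw (law_bs l r Θ f hl hr n) F w hw (law_nonneg l r Θ f hl hr n) (past r n i)
        (fun a b _ _ e => congrArg F (Prod.ext_iff.1 e).1) h0
    have h2 : Cle (cw (cb (law l r Θ f n) (bs n) l F w) (past r n i) v) (fun v => W (pt r n (i + 1) v)) w0 δ ↔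
        Cle (cw Θ (f i) (pt r n i v)) W (u (pt r n i v)) δ := by
      rw [h1, hu v h0 i hi]
      exact law_cle l r Θ f hl hr n i hi W w0 δ v (cb_supp F h0).2
    by_cases h3 : Cle (cw Θ (f i) (pt r n i v)) W (u (pt r n i v)) δ
    · rw [if_neg (not_not.2 h3), if_neg (not_not.2 (h2.2 h3))]
    · rw [if_pos h3, if_pos (fun h4 => h3 (h2.1 h4))]

/-- **the chain given the label of the base** -/
theorem chain_gen (n : ℕ) (F : Λ → χ) (w : Λ) (hw : l w ≠ 0) (W : St → V) (u : St → V → ℝ) (w0 : V → ℝ)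
    (hw0 : ∀ v, 0 ≤ w0 v) (hw1 : ∑ v, w0 v = 1)
    (hu : ∀ v, cb (law l r Θ f n) (bs n) l F w v ≠ 0 → ∀ i, i < n → u (pt r n i v) = w0) {δ : ℝ} (hδ : 0 ≤ δ)
    (φ : (Fin n → V) → ℝ) (hφ : ∀ v, 0 ≤ φ v ∧ φ v ≤ 1) :
    ∑ v, cb (law l r Θ f n) (bs n) l F w v * φ (fun j => W (pt r n (j.1 + 1) v)) ≤
      ∑ x, wK w0 n x * φ x + ∑ i ∈ range n, (δ + Pw (cb (law l r Θ f n) (bs n) l F w)
        (fun v => ¬ Cle (cw Θ (f i) (pt r n i v)) W (u (pt r n i v)) δ)) := by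
  have hbs := law_bs l r Θ f hl hr n
  have hnn := law_nonneg l r Θ f hl hr n
  have h1 := chain_tv (cb (law l r Θ f n) (bs n) l F w) (cb_nonneg hbs F hnn w) (cb_sum hbs F hnn w hw)
    (fun _ => ()) (fun _ => w0) (fun _ => hw0) (fun _ => hw1) n (fun i => Λ × (Fin (i.1 + 1) → St))
    (fun i => past r n i.1) (fun v j => W (pt r n (j.1 + 1) v)) (fun _ => δ) (fun _ => hδ)
    (fun i ω ω' _ _ e => ⟨rfl, (past_win r F W i ω ω' e).2⟩) (fun _ => φ) (fun _ => hφ)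
  refine h1.trans (add_le_add (le_of_eq ?_) (le_of_eq ?_))
  · rw [← Finset.sum_mul, cb_sum hbs F hnn w hw, one_mul]
  · rw [← Fin.sum_univ_eq_sum_range (fun i => δ + Pw (cb (law l r Θ f n) (bs n) l F w)
        (fun v => ¬ Cle (cw Θ (f i) (pt r n i v)) W (u (pt r n i v)) δ)) n]
    refine Finset.sum_congr rfl fun i _ => ?_
    rw [cle_step l r Θ f hl hr n F w hw W u w0 hu δ i.1 i.2]

/-- **bad events of selected carriers, given the label of the base** -/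
theorem sel_gen {ψ ι : Type} (n : ℕ) (F : Λ → χ) (w : Λ) (hw : l w ≠ 0) (W : St → V) (u : St → V → ℝ) (w0 : V → ℝ)
    (hw0 : ∀ v, 0 ≤ w0 v) (hw1 : ∑ v, w0 v = 1)
    (hu : ∀ v, cb (law l r Θ f n) (bs n) l F w v ≠ 0 → ∀ i, i < n → u (pt r n i v) = w0) {δ : ℝ} (hδ : 0 ≤ δ)
    (g : Λ → ψ) (sel : (Fin n → V) → ι) (J : Finset ℕ) (Bad : ℕ → ι → ψ → Prop) (β : ℕ → ℝ)
    (hβ : ∀ j ∈ J, ∀ b, Pw (cw l F w) (fun x => Bad j b (g x)) ≤ β j) :
    ∑ j ∈ J, Pw (cb (law l r Θ f n) (bs n) l F w) (fun v => Bad j (sel (fun j => W (pt r n (j.1 + 1) v)))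
        (g (bs n v))) ≤
      ∑ j ∈ J, β j + J.card * ∑ i ∈ range n, (δ + Pw (cb (law l r Θ f n) (bs n) l F w)
        (fun v => ¬ Cle (cw Θ (f i) (pt r n i v)) W (u (pt r n i v)) δ)) := by
  have hbs := law_bs l r Θ f hl hr n
  have hnn := law_nonneg l r Θ f hl hr n
  have h1 := sel_bad_sum (cb (law l r Θ f n) (bs n) l F w) (cb_nonneg hbs F hnn w) (cb_sum hbs F hnn w hw)
    (fun v => g (bs n v)) w0 hw0 hw1 n (fun i => Λ × (Fin (i.1 + 1) → St))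
    (fun i => past r n i.1) (fun v j => W (pt r n (j.1 + 1) v)) (fun _ => δ) (fun _ => hδ)
    (fun i ω ω' _ _ e => past_win r g W i ω ω' e) sel J Bad β (fun j hj b => by
      rw [cb_base hbs F w hw (fun x => Bad j b (g x))]
      exact hβ j hj b)
  refine h1.trans (add_le_add le_rfl (le_of_eq ?_))
  congr 1
  rw [← Fin.sum_univ_eq_sum_range (fun i => δ + Pw (cb (law l r Θ f n) (bs n) l F w)
    (fun v => ¬ Cle (cw Θ (f i) (pt r n i v)) W (u (pt r n i v)) δ)) n]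
  refine Finset.sum_congr rfl fun i _ => ?_
  rw [cle_step l r Θ f hl hr n F w hw W u w0 hu δ i.1 i.2]

end gen

/-! ### blocks -/

/-- the blocks of eight -/
def blk8 {V : Type} {K : ℕ} (x : Fin (8 * K) → V) : Fin K → Fin 8 → V := fun b j => x ⟨8 * b.1 + j.1, by omega⟩

theorem wK_blk8 {V : Type} [Fintype V] (w : V → ℝ) (K : ℕ) (P : (Fin K → Fin 8 → V) → Prop) :
    Pw (wK w (8 * K)) (fun v => P (blk8 v)) = Pw (wK (wK w 8) K) P := by
  rw [← wK_blocks w K 8 P]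
  have key : ∀ (n : ℕ) (h : n = K * 8), Pw (wK w n) (fun v => P (fun b j => v ⟨8 * b.1 + j.1, by omega⟩)) =
      Pw (wK w (K * 8)) (fun v => P (Pool.Agent.Helper9.ND.blk v)) := by
    intro n h
    subst h
    congr 1
    funext v
    congr 1
    funext b j
    unfold Pool.Agent.Helper9.ND.blk
    congr 1
    apply Fin.ext
    show 8 * b.1 + j.1 = (finProdFinEquiv (b, j)).1
    rw [finProdFinEquiv_apply_val]
    ring
  exact key (8 * K) (by ring)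

/-! ### the array -/

section arr

variable {Ω φ α β R γ : Type} [Fintype Ω] [Fintype α] [Fintype R] {N : ℕ} {D : ED Ω φ α β N} {Λ ιr ιc : Type}
  [Fintype Λ] [Fintype ιr] [Fintype ιc] [DecidableEq ιr] [DecidableEq ιc] {l : Λ → ℝ} {en : ιr → ιc → Λ → Ω} {e : ℝ}

variable (D l en) in
/-- the law of the chain of row `a` given the label `Fl` of the base -/
def cx (E : ℕ → (α → Lb φ R) → α → R) (F : α → φ) (T : α → ℝ) (P : ℕ) (o : ℕ → ℕ) (i0 s : ℕ) (b0 : ιc)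
    (mv : ℕ → Option ιc) (a : ιr) (n : ℕ) (Fl : Λ → γ) (w : Λ) : Lam Λ (ιc → Ω) n → ℝ :=
  cb (chl D l en (nd E F T P o i0 s) b0 mv a n) (bs n) l Fl w

variable (D l en) in
/-- **the one-step errors** of the chain of row `a` given the label `Fl` of the base -/
def Ers (E : ℕ → (α → Lb φ R) → α → R) (F : α → φ) (T : α → ℝ) (P ρ : ℕ) (o : ℕ → ℕ) (i0 s : ℕ) (δ : ℝ) (b0 : ιc)
    (mv : ℕ → Option ιc) (a : ιr) (n : ℕ) (Fl : Λ → γ) (w : Λ) : ℝ :=
  ∑ i ∈ range n, (δ + Pw (cb (chl D l en (nd E F T P o i0 s) b0 mv a n) (bs n) l Fl w)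
    (fun v => NCl D (push (row en a) l) b0 E F T P ρ o δ (mv i) i0 s (pt (row en a) n i v)))

variable (D en) in
/-- the windows of the points `1, .., n` of the chain -/
def Wch (E : ℕ → (α → Lb φ R) → α → R) (F : α → φ) (T : α → ℝ) (P ρ : ℕ) (o : ℕ → ℕ) (i0 s : ℕ) (b0 : ιc)
    (a : ιr) (n : ℕ) (v : Lam Λ (ιc → Ω) n) : Fin n → Fin (2 ^ ρ) × R :=
  fun j => wf E F T P ρ o i0 s (D.P (pt (row en a) n (j.1 + 1) v b0))

variable (h : AR D l en e) (E : ℕ → (α → Lb φ R) → α → R) (F : α → φ) (T : α → ℝ) (P ρ : ℕ) (o : ℕ → ℕ) (i0 s : ℕ)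
  {δ : ℝ} (hδ : 0 ≤ δ) (b0 : ιc) (mv : ℕ → Option ιc) (a : ιr) (n : ℕ) (Fl : Λ → γ)
include h

omit [Fintype α] [Fintype R] [DecidableEq ιr] [DecidableEq ιc] in
theorem mu_nn (b0 : ιc) (a : ιr) (ω : Ω) : 0 ≤ D.μ ω := by
  rw [← h.pu a b0]
  exact Pool.Agent.Helper31.EC.push_nn _ _ h.nn ω

omit [Fintype α] [Fintype R] [DecidableEq ιr] [DecidableEq ιc] in
theorem mu_ne (b0 : ιc) (a : ιr) {w : Λ} (hw : l w ≠ 0) : D.μ (en a b0 w) ≠ 0 := by
  rw [← h.pu a b0]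
  exact Pool.Agent.Helper6.VS.push_supp (en a b0) l h.nn w hw

omit [Fintype R] [DecidableEq ιr] [DecidableEq ιc] in
theorem pmu_nn (b0 : ιc) (a : ιr) (q : α) : 0 ≤ push D.P D.μ q :=
  Pool.Agent.Helper31.EC.push_nn _ _ (mu_nn h b0 a) q

omit [Fintype R] [DecidableEq ιr] [DecidableEq ιc] in
theorem pmu_ne (b0 : ιc) (a : ιr) {w : Λ} (hw : l w ≠ 0) : push D.P D.μ (D.P (en a b0 w)) ≠ 0 :=
  Pool.Agent.Helper6.VS.push_supp D.P D.μ (mu_nn h b0 a) _ (mu_ne h b0 a hw)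

/-- the law of the windows of the node is constant along the chain -/
theorem lw_const (hFl : ∀ w w', l w ≠ 0 → l w' ≠ 0 → Fl w = Fl w' →
      nd E F T P o i0 s (D.P (en a b0 w)) = nd E F T P o i0 s (D.P (en a b0 w'))) {w : Λ} (hw : l w ≠ 0)
    (v : Lam Λ (ιc → Ω) n) (hv : cb (chl D l en (nd E F T P o i0 s) b0 mv a n) (bs n) l Fl w v ≠ 0) (i : ℕ)
    (hi : i ≤ n) :
    lw (push D.P D.μ) (nd E F T P o i0 s) (wf E F T P ρ o i0 s) (D.P (pt (row en a) n i v b0)) =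
      lw (push D.P D.μ) (nd E F T P o i0 s) (wf E F T P ρ o i0 s) (D.P (en a b0 w)) := by
  obtain ⟨h1, h2⟩ := cb_supp Fl hv
  have h3 := h.const (nd E F T P o i0 s) b0 mv a n v h2 i hi
  have h4 : nd E F T P o i0 s (D.P (pt (row en a) n i v b0)) = nd E F T P o i0 s (D.P (en a b0 (bs n v))) :=
    (Prod.ext_iff.1 (Prod.ext_iff.1 h3).1).2
  have h5 : l (bs n v) ≠ 0 := (law_supp l (row en a) _ _ h.nn rfl n v h2).1
  exact lw_congr _ _ _ (h4.trans (hFl _ _ h5 hw h1))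

include hδ in
/-- **functions of the windows of the chain given the label of the base** -/
theorem chain_x (hFl : ∀ w w', l w ≠ 0 → l w' ≠ 0 → Fl w = Fl w' →
      nd E F T P o i0 s (D.P (en a b0 w)) = nd E F T P o i0 s (D.P (en a b0 w'))) {w : Λ} (hw : l w ≠ 0)
    (φ : (Fin n → Fin (2 ^ ρ) × R) → ℝ) (hφ : ∀ v, 0 ≤ φ v ∧ φ v ≤ 1) :
    ∑ v, cb (chl D l en (nd E F T P o i0 s) b0 mv a n) (bs n) l Fl w v * φ (Wch D en E F T P ρ o i0 s b0 a n v) ≤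
      ∑ x, wK (lw (push D.P D.μ) (nd E F T P o i0 s) (wf E F T P ρ o i0 s) (D.P (en a b0 w))) n x * φ x +
      Ers D l en E F T P ρ o i0 s δ b0 mv a n Fl w :=
  chain_gen l (row en a) (push (row en a) l) (fun i => gl D (nd E F T P o i0 s) b0 (mv i)) h.nn rfl n Fl w hw
    (fun x => wf E F T P ρ o i0 s (D.P (x b0)))
    (fun x => lw (push D.P D.μ) (nd E F T P o i0 s) (wf E F T P ρ o i0 s) (D.P (x b0)))
    (lw (push D.P D.μ) (nd E F T P o i0 s) (wf E F T P ρ o i0 s) (D.P (en a b0 w)))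
    (lw_nonneg _ (pmu_nn h b0 a) _ _ _) (lw_sum _ (pmu_nn h b0 a) _ _ _ (pmu_ne h b0 a hw))
    (fun v hv i hi => lw_const h E F T P ρ o i0 s b0 mv a n Fl hFl hw v hv i hi.le) hδ φ hφ

include hδ in
/-- **bad events of selected carriers** -/
theorem sel_x {ψ ι : Type} (hFl : ∀ w w', l w ≠ 0 → l w' ≠ 0 → Fl w = Fl w' →
      nd E F T P o i0 s (D.P (en a b0 w)) = nd E F T P o i0 s (D.P (en a b0 w'))) {w : Λ} (hw : l w ≠ 0)
    (g : Λ → ψ) (sel : (Fin n → Fin (2 ^ ρ) × R) → ι) (J : Finset ℕ) (Bad : ℕ → ι → ψ → Prop) (β : ℕ → ℝ)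
    (hβ : ∀ j ∈ J, ∀ b, Pw (cw l Fl w) (fun x => Bad j b (g x)) ≤ β j) :
    ∑ j ∈ J, Pw (cb (chl D l en (nd E F T P o i0 s) b0 mv a n) (bs n) l Fl w)
        (fun v => Bad j (sel (Wch D en E F T P ρ o i0 s b0 a n v)) (g (bs n v))) ≤
      ∑ j ∈ J, β j + J.card * Ers D l en E F T P ρ o i0 s δ b0 mv a n Fl w :=
  sel_gen l (row en a) (push (row en a) l) (fun i => gl D (nd E F T P o i0 s) b0 (mv i)) h.nn rfl n Fl w hw
    (fun x => wf E F T P ρ o i0 s (D.P (x b0)))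
    (fun x => lw (push D.P D.μ) (nd E F T P o i0 s) (wf E F T P ρ o i0 s) (D.P (x b0)))
    (lw (push D.P D.μ) (nd E F T P o i0 s) (wf E F T P ρ o i0 s) (D.P (en a b0 w)))
    (lw_nonneg _ (pmu_nn h b0 a) _ _ _) (lw_sum _ (pmu_nn h b0 a) _ _ _ (pmu_ne h b0 a hw))
    (fun v hv i hi => lw_const h E F T P ρ o i0 s b0 mv a n Fl hFl hw v hv i hi.le) hδ g sel J Bad β hβ

/-- **the mean of the one-step errors over the base** -/
theorem ers_mean (hm : ∑ w, l w = 1) (δ : ℝ) :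
    ∑ w, l w * Ers D l en E F T P ρ o i0 s δ b0 mv a n Fl w =
      ∑ i ∈ range n, (δ + Pw (push (row en a) l) (NCl D (push (row en a) l) b0 E F T P ρ o δ (mv i) i0 s)) := by
  unfold Ers
  simp only [Finset.mul_sum, mul_add]
  rw [Finset.sum_comm]
  refine Finset.sum_congr rfl fun i hi => ?_
  rw [Finset.sum_add_distrib, ← Finset.sum_mul, hm, one_mul]
  congr 1
  have h1 := law_bs l (row en a) (push (row en a) l) (fun i => gl D (nd E F T P o i0 s) b0 (mv i)) h.nn rfl n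
  have h2 := law_nonneg l (row en a) (push (row en a) l) (fun i => gl D (nd E F T P o i0 s) b0 (mv i)) h.nn rfl n
  have h3 := law_pt l (row en a) (push (row en a) l) (fun i => gl D (nd E F T P o i0 s) b0 (mv i)) h.nn rfl n i
    (Finset.mem_range.1 hi).le
  have h4 := cb_mean_Pw h1 Fl h2 (fun v => NCl D (push (row en a) l) b0 E F T P ρ o δ (mv i) i0 s
    (pt (row en a) n i v))
  refine h4.trans ?_
  classical
  have h5 := push_sum (pt (row en a) n i)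
    (law l (row en a) (push (row en a) l) (fun i => gl D (nd E F T P o i0 s) b0 (mv i)) n)
    (fun x => if NCl D (push (row en a) l) b0 E F T P ρ o δ (mv i) i0 s x then 1 else 0)
  rw [h3] at h5
  rw [pw_fun, pw_fun]
  exact h5.symm

omit h in
theorem ers_nonneg (h : AR D l en e) (hδ : 0 ≤ δ) (w : Λ) : 0 ≤ Ers D l en E F T P ρ o i0 s δ b0 mv a n Fl w := by
  refine Finset.sum_nonneg fun i _ => add_nonneg hδ (Pw_nonneg _ ?_ _)
  exact cb_nonneg (law_bs l (row en a) (push (row en a) l) (fun i => gl D (nd E F T P o i0 s) b0 (mv i)) h.nn rfl n)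
    Fl (law_nonneg l (row en a) (push (row en a) l) (fun i => gl D (nd E F T P o i0 s) b0 (mv i)) h.nn rfl n) w

include hδ in
/-- **the blocks of eight windows see every direction** -/
theorem seen_x {N' K : ℕ} (hFl : ∀ w w', l w ≠ 0 → l w' ≠ 0 → Fl w = Fl w' →
      nd E F T P o i0 s (D.P (en a b0 w)) = nd E F T P o i0 s (D.P (en a b0 w'))) {w : Λ} (hw : l w ≠ 0)
    (Th : (Fin 8 → Fin (2 ^ ρ) × R) → Fin N' → ℝ) (φ : Fin N' → Fin N' → ℝ) {c p : ℝ} (hc : 0 < c) (hp : p ≤ 1)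
    (hsee : See Th φ (wK (lw (push D.P D.μ) (nd E F T P o i0 s) (wf E F T P ρ o i0 s) (D.P (en a b0 w))) 8) c p) :
    Pw (cb (chl D l en (nd E F T P o i0 s) b0 mv a (8 * K)) (bs (8 * K)) l Fl w)
        (fun v => ¬ Seen Th φ c (blk8 (Wch D en E F T P ρ o i0 s b0 a (8 * K) v))) ≤
      (net N' c).card * (1 - p) ^ K + Ers D l en E F T P ρ o i0 s δ b0 mv a (8 * K) Fl w := by
  classical
  have h1 := chain_x h E F T P ρ o i0 s hδ b0 mv a (8 * K) Fl hFl hw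
    (fun x => if ¬ Seen Th φ c (blk8 x) then 1 else 0) (fun x => by split_ifs <;> norm_num)
  rw [pw_fun]
  refine h1.trans (add_le_add ?_ le_rfl)
  rw [← pw_fun, wK_blk8 _ K (fun x => ¬ Seen Th φ c x)]
  have h2 := lw_nonneg (push D.P D.μ) (pmu_nn h b0 a) (nd E F T P o i0 s) (wf E F T P ρ o i0 s) (D.P (en a b0 w))
  have h3 := lw_sum (push D.P D.μ) (pmu_nn h b0 a) (nd E F T P o i0 s) (wf E F T P ρ o i0 s) (D.P (en a b0 w))
    (pmu_ne h b0 a hw)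
  exact seen_iid Th φ _ (wK_nonneg h2 8) (sum_wK h3 8) hc hp hsee K

include hδ in
/-- **some block of eight windows is valid** -/
theorem val_x {K : ℕ} (hFl : ∀ w w', l w ≠ 0 → l w' ≠ 0 → Fl w = Fl w' →
      nd E F T P o i0 s (D.P (en a b0 w)) = nd E F T P o i0 s (D.P (en a b0 w'))) {w : Λ} (hw : l w ≠ 0)
    (S : (Fin 8 → Fin (2 ^ ρ) × R) → Prop) {c : ℝ}
    (hS : c ≤ Pw (wK (lw (push D.P D.μ) (nd E F T P o i0 s) (wf E F T P ρ o i0 s) (D.P (en a b0 w))) 8) S) :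
    Pw (cb (chl D l en (nd E F T P o i0 s) b0 mv a (8 * K)) (bs (8 * K)) l Fl w)
        (fun v => ∀ b, ¬ S (blk8 (Wch D en E F T P ρ o i0 s b0 a (8 * K) v) b)) ≤
      (1 - c) ^ K + Ers D l en E F T P ρ o i0 s δ b0 mv a (8 * K) Fl w := by
  classical
  have h1 := chain_x h E F T P ρ o i0 s hδ b0 mv a (8 * K) Fl hFl hw
    (fun x => if ∀ b, ¬ S (blk8 x b) then 1 else 0) (fun x => by split_ifs <;> norm_num)
  rw [pw_fun]
  refine h1.trans (add_le_add ?_ le_rfl)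
  rw [← pw_fun, wK_blk8 _ K (fun x => ∀ b, ¬ S (x b))]
  have h2 := lw_nonneg (push D.P D.μ) (pmu_nn h b0 a) (nd E F T P o i0 s) (wf E F T P ρ o i0 s) (D.P (en a b0 w))
  have h3 := lw_sum (push D.P D.μ) (pmu_nn h b0 a) (nd E F T P o i0 s) (wf E F T P ρ o i0 s) (D.P (en a b0 w))
    (pmu_ne h b0 a hw)
  exact wK_miss _ (wK_nonneg h2 8) (sum_wK h3 8) S hS K

end arr

/-! ### labels of the spectators -/

section fp

variable {Ω φ α β : Type} [Fintype Ω] {N : ℕ} (D : ED Ω φ α β N) {Λ : Type} {k K : ℕ}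
  (en : Fin (k + 2 * K) → Fin (k + 2 * K) → Λ → Ω) (a0 b0 : Fin (k + 2 * K))

theorem fp_P {a : Fin (k + 2 * K)} (ha : a ∈ spc k K) {w w' : Λ} (h : Fp D en a0 b0 w = Fp D en a0 b0 w') :
    D.P (en a b0 w) = D.P (en a b0 w') := congrFun (Prod.ext_iff.1 (Prod.ext_iff.1 h).1).1 ⟨a, ha⟩

theorem fp_Q {b : Fin (k + 2 * K)} (hb : b ∈ spc k K) {w w' : Λ} (h : Fp D en a0 b0 w = Fp D en a0 b0 w') :
    D.Q (en a0 b w) = D.Q (en a0 b w') := congrFun (Prod.ext_iff.1 (Prod.ext_iff.1 h).1).2 ⟨b, hb⟩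

theorem fp_F {w w' : Λ} (h : Fp D en a0 b0 w = Fp D en a0 b0 w') :
    D.F (en a0 b0 w) = D.F (en a0 b0 w') := (Prod.ext_iff.1 h).2

end fp

/-! ### the tree of Helper99 -/

section tree

open Pool.Agent.Helper99.FW Pool.Agent.Helper99.VW
open Matrix (mulVec)
open scoped Matrix

variable {Ω φ α β γ : Type} [Fintype Ω] [Fintype α] {N : ℕ} {D : ED Ω φ α β N} {Λ ιr ιc : Type}
  [Fintype Λ] [Fintype ιr] [Fintype ιc] [DecidableEq ιr] [DecidableEq ιc] {l : Λ → ℝ} {en : ιr → ιc → Λ → Ω} {e : ℝ}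

variable {M ρ Dw r : ℕ} {g κ : ℝ}

theorem cst_p (hc : Cst M Dw ρ r g κ) : κ / (2 ^ 25 * ((M : ℝ) + 1) * ((2 : ℝ) ^ Dw) ^ 2) ≤ 1 := by
  have h1 := hc.hκ1
  have h2 := hc.hκ
  have h3 : (1 : ℝ) ≤ 2 ^ Dw := one_le_pow₀ (by norm_num)
  have h4 : (0 : ℝ) ≤ M := Nat.cast_nonneg M
  have h5 : (1 : ℝ) ≤ ((M : ℝ) + 1) := by linarith
  rw [div_le_one (by positivity)]
  have h6 : (1 : ℝ) ≤ ((M : ℝ) + 1) ^ 3 := one_le_pow₀ h5
  have h7 : (1 : ℝ) ≤ ((2 : ℝ) ^ Dw) ^ 4 := one_le_pow₀ h3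
  have h8 : (1 : ℝ) ≤ ((2 : ℝ) ^ Dw) ^ 2 := one_le_pow₀ h3
  have a1 : κ ≤ 1 := by
    have : κ ≤ 2 ^ 74 * ((M : ℝ) + 1) ^ 3 * ((2 : ℝ) ^ Dw) ^ 4 * κ := by
      have q1 : (1 : ℝ) ≤ 2 ^ 74 * ((M : ℝ) + 1) ^ 3 * ((2 : ℝ) ^ Dw) ^ 4 := by
        have := one_le_mul_of_one_le_of_one_le (one_le_mul_of_one_le_of_one_le (show (1 : ℝ) ≤ 2 ^ 74 by norm_num) h6) h7
        exact this
      exact le_mul_of_one_le_left h2.le q1
    linarith
  have a2 : (1 : ℝ) ≤ 2 ^ 25 * ((M : ℝ) + 1) * ((2 : ℝ) ^ Dw) ^ 2 :=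
    one_le_mul_of_one_le_of_one_le (one_le_mul_of_one_le_of_one_le (by norm_num) h5) h8
  linarith

/-- **SEEN, at a base point whose node of row `a` is good** -/
theorem seen_tree (hc : Cst M Dw ρ r g κ) (h : AR D l en e) (F : α → φ) (T : α → ℝ) (A : α → Fin M → ℝ)
    (hA : ∀ x, push D.P D.μ x ≠ 0 → ‖A x‖ ≤ 1) (P : ℕ) (o : ℕ → ℕ) (i0 s : ℕ) {δ : ℝ} (hδ : 0 ≤ δ) (b0 : ιc)
    (mv : ℕ → Option ιc) (a : ιr) (K : ℕ) (Fl : Λ → γ)
    (hFl : ∀ w w', l w ≠ 0 → l w' ≠ 0 → Fl w = Fl w' → D.P (en a b0 w) = D.P (en a b0 w')) {w : Λ} (hw : l w ≠ 0)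
    (hN : IsNd (cw (push D.P D.μ) (nd (EG M ρ Dw r g κ (push D.P D.μ) T A) F T P o i0 s) (D.P (en a b0 w))) T
      (i0 * P + s) Dw ρ (cl (i0 * P + s) (T (D.P (en a b0 w))))) :
    Pw (cb (chl D l en (nd (EG M ρ Dw r g κ (push D.P D.μ) T A) F T P o i0 s) b0 mv a (8 * K)) (bs (8 * K)) l Fl w)
        (fun v => ¬ Seen (ThV ρ Dw r) (fun k => (bG M ρ Dw r g κ F T P (push D.P D.μ) A o i0 s
          (nd (EG M ρ Dw r g κ (push D.P D.μ) T A) F T P o i0 s (D.P (en a b0 w)))).M *ᵥ Pi.single k g) (1 / (8 * M))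
          (blk8 (Wch D en (EG M ρ Dw r g κ (push D.P D.μ) T A) F T P ρ o i0 s b0 a (8 * K) v))) ≤
      (net M (1 / (8 * M))).card * (1 - κ / (2 ^ 25 * ((M : ℝ) + 1) * ((2 : ℝ) ^ Dw) ^ 2)) ^ K +
      Ers D l en (EG M ρ Dw r g κ (push D.P D.μ) T A) F T P ρ o i0 s δ b0 mv a (8 * K) Fl w :=
  seen_x h _ F T P ρ o i0 s hδ b0 mv a Fl (fun w w' h1 h2 h3 => by rw [hFl w w' h1 h2 h3]) hw _ _
    (by
      have h1 : (0 : ℝ) < M := by exact_mod_cast hc.hN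
      positivity) (cst_p hc) (hc.see_tree hA (pmu_ne h b0 a hw) hN)

/-- **VALID, at a base point whose node of row `a` is good** -/
theorem val_tree (hc : Cst M Dw ρ r g κ) (h : AR D l en e) (F : α → φ) (T : α → ℝ) (A : α → Fin M → ℝ)
    (hA : ∀ x, push D.P D.μ x ≠ 0 → ‖A x‖ ≤ 1) (P : ℕ) (o : ℕ → ℕ) (i0 s : ℕ) {δ : ℝ} (hδ : 0 ≤ δ) (b0 : ιc)
    (mv : ℕ → Option ιc) (a : ιr) (K : ℕ) (Fl : Λ → γ)
    (hFl : ∀ w w', l w ≠ 0 → l w' ≠ 0 → Fl w = Fl w' → D.P (en a b0 w) = D.P (en a b0 w')) {w : Λ} (hw : l w ≠ 0)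
    (hN : IsNd (cw (push D.P D.μ) (nd (EG M ρ Dw r g κ (push D.P D.μ) T A) F T P o i0 s) (D.P (en a b0 w))) T
      (i0 * P + s) Dw ρ (cl (i0 * P + s) (T (D.P (en a b0 w))))) :
    Pw (cb (chl D l en (nd (EG M ρ Dw r g κ (push D.P D.μ) T A) F T P o i0 s) b0 mv a (8 * K)) (bs (8 * K)) l Fl w)
        (fun v => ∀ b, ¬ Gdw (2 ^ (ρ - Dw)) r (cstV
          (blk8 (Wch D en (EG M ρ Dw r g κ (push D.P D.μ) T A) F T P ρ o i0 s b0 a (8 * K) v) b))) ≤
      (1 - (1 / (2048 * (2 : ℝ) ^ Dw)) ^ 2) ^ K +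
      Ers D l en (EG M ρ Dw r g κ (push D.P D.μ) T A) F T P ρ o i0 s δ b0 mv a (8 * K) Fl w :=
  val_x h _ F T P ρ o i0 s hδ b0 mv a Fl (fun w w' h1 h2 h3 => by rw [hFl w w' h1 h2 h3]) hw
    (fun v => Gdw (2 ^ (ρ - Dw)) r (cstV v)) (hc.val_tree hA (pmu_ne h b0 a hw) hN)

end tree

end

end Pool.Agent.Helper9.FW
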